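import Mathlib
import Pool.Agent.R232.ModTop

/-!
# MP_aae45c_an: the modular topology of `ℓ^{(p_n)}` is not regular

The definitions (`rho`, `El`, `RhoTendsto`, `RhoClosed`, `modTop`) are in `Pool/Agent/R232/ModTop.lean`.

Let `(p_n)` be unbounded, `p_{n_i} ≥ i`, and use only the coordinates `n_i`. For `S ⊆ ℕ` let `x_S` be the
point with entries `1/4` on `S` and `0` off `S`. Choose a sequence `S_i`, dense in the Cantor space, of
pairwise not eventually equal sets, and positions `k_i → ∞`; let `z_i` be `0` before `k_i` and, from `k_i`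
on, `7/8` on `S_i` and `-7/8` off `S_i`. Then `F = {x_{S_i} + z_i}` is `ρ`-closed and `0 ∉ F`. If `U ∋ 0` is
open then all `x_S` with `S ⊆ [k, ∞)` lie in `U`, and by Baire's theorem the set of `S` for which `U` contains
the modular ball of radius `ε` about `x_S` is dense in some cylinder, for some `ε > 0`; if also `V ⊇ F` is
open, then some `x_S + z_i` lies in `U ∩ V`.
-/

open Pool.Agent.R232.ModTop
open scoped Topology

namespace Pool.Agent.Results.MP_aae45c_an.ModularTopologyNotRegular

/-- **Negative answer to Q1, for every unbounded sequence.** Let `(p_n) ⊂ [1,∞)` be unbounded. Then there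
are a point `x` of `ℓ^{(p_n)}` and a set `F ∌ x`, closed in the modular topology, such that no two disjoint
open sets contain `x` and `F` respectively. In particular the modular topology is not regular. -/
theorem result (p : ℕ → ℝ) (hp : ∀ n, 1 ≤ p n) (hub : ¬ BddAbove (Set.range p)) :
    (∃ (x : El p) (F : Set (El p)), IsClosed[modTop p] F ∧ x ∉ F ∧
      ∀ U V : Set (El p), IsOpen[modTop p] U → IsOpen[modTop p] V → x ∈ U → F ⊆ V →
        ¬ Disjoint U V) ∧
    ¬ @RegularSpace (El p) (modTop p) := by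
  obtain ⟨φ, hφ, hpφ⟩ := exists_sub p hub
  have h1 : IsClosed[modTop p] (Fset p hp φ hφ hpφ) :=
    (isClosed_iff p _).2 (closed_Fset p hp φ hφ hpφ)
  have h2 := zero_notMem p hp φ hφ hpφ
  refine ⟨⟨zeroEl p hp φ hφ hpφ, Fset p hp φ hφ hpφ, h1, h2,
    fun U V hU hV h0 hF => main p hp φ hφ hpφ U V hU hV h0 hF⟩, fun hreg => ?_⟩
  let _ := modTop p
  have h3 : Disjoint (nhdsSet (Fset p hp φ hφ hpφ)) (nhds (zeroEl p hp φ hφ hpφ)) :=
    RegularSpace.regular h1 h2
  rw [Filter.disjoint_iff] at h3
  obtain ⟨V, hV, U, hU, hVU⟩ := h3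
  obtain ⟨V', hV'o, hFV', hV'V⟩ := mem_nhdsSet_iff_exists.1 hV
  obtain ⟨U', hU'U, hU'o, h0U'⟩ := mem_nhds_iff.1 hU
  exact main p hp φ hφ hpφ U' V' hU'o hV'o h0U' hFV' ((hVU.mono hV'V hU'U).symm)

end Pool.Agent.Results.MP_aae45c_an.ModularTopologyNotRegular
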